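import Pool.Agent.H586.GLU.Stm

/-!
# Project GLU (helper586), task PERT2 (by helper115)
-/

set_option autoImplicit false
set_option linter.unusedSectionVars false
set_option linter.unusedVariables false

open MeasureTheory Filter Topology

namespace Pool.Agent.H115.GLU

open Pool.Agent.H586.GLU

theorem pert2 : S_PERT2 := by
  intro Ω E _ _ _ μ _ Y ν β K M p c T B l q h hK hβ hM hp hν0 hνK hνm hνp hl hk hD hlK
  have hK0 : 0 ≤ K := by linarith
  have hn0 : ∀ ω, 0 ≤ ν (Y ω) := fun ω => hν0 _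
  -- moments
  have bi : ∀ (f : Ω → ℝ) (C : ℝ), Measurable f → (∀ ω, |f ω| ≤ C) → Integrable f μ := by
    intro f C hf hC
    refine Integrable.of_bound hf.aestronglyMeasurable C (ae_of_all _ fun ω => ?_)
    rw [Real.norm_eq_abs]
    exact hC ω
  have inj : ∀ j : ℕ, Integrable (fun ω => ν (Y ω) ^ j) μ := by
    intro j
    refine bi _ (K ^ j) (hνm.pow_const j) fun ω => ?_
    rw [abs_of_nonneg (pow_nonneg (hn0 ω) j)]
    exact pow_le_pow_left₀ (hn0 ω) (hνK ω) j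
  have mom : ∀ j : ℕ, ∫ ω, ν (Y ω) ^ j ∂μ ≤ M ^ j + K ^ j * p := by
    intro j
    have hS : MeasurableSet {ω | M < ν (Y ω)} := measurableSet_lt measurable_const hνm
    have h1 : ∀ ω, ν (Y ω) ^ j ≤
        M ^ j + K ^ j * Set.indicator {ω | M < ν (Y ω)} (1 : Ω → ℝ) ω := by
      intro ω
      by_cases hω : M < ν (Y ω)
      · have e1 : Set.indicator {ω | M < ν (Y ω)} (1 : Ω → ℝ) ω = 1 := Set.indicator_of_mem hω 1
        rw [e1]
        have a1 := pow_le_pow_left₀ (hn0 ω) (hνK ω) j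
        have a2 := pow_nonneg hM j
        linarith
      · have e1 : Set.indicator {ω | M < ν (Y ω)} (1 : Ω → ℝ) ω = 0 :=
          Set.indicator_of_notMem hω 1
        rw [e1]
        have a1 := pow_le_pow_left₀ (hn0 ω) (not_lt.1 hω) j
        linarith
    have i1 : Integrable (Set.indicator {ω | M < ν (Y ω)} (1 : Ω → ℝ)) μ :=
      (integrable_const (1 : ℝ)).indicator hS
    calc ∫ ω, ν (Y ω) ^ j ∂μ ≤
        ∫ ω, (M ^ j + K ^ j * Set.indicator {ω | M < ν (Y ω)} (1 : Ω → ℝ) ω) ∂μ :=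
          integral_mono (inj j) ((integrable_const _).add (i1.const_mul _)) h1
      _ = M ^ j + K ^ j * μ.real {ω | M < ν (Y ω)} := by
        rw [integral_add (integrable_const _) (i1.const_mul _), integral_const,
          integral_const_mul, integral_indicator_one hS, probReal_univ, one_smul]
      _ ≤ M ^ j + K ^ j * p := by
        have := mul_le_mul_of_nonneg_left hνp (pow_nonneg hK0 j)
        linarith
  -- the functionals
  have lb : ∃ C, ∀ A, |l A| ≤ C * ν A := ⟨K, hlK⟩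
  have Bb : ∃ C, ∀ A, |B A| ≤ C * ν A := ⟨K, hD.B_le⟩
  have lTK : ∀ A, |l (T A)| ≤ K ^ 2 * ν A := by
    intro A
    calc |l (T A)| ≤ K * ν (T A) := hlK _
      _ ≤ K * (K * ν A) := mul_le_mul_of_nonneg_left (hD.T_le A) hK0
      _ = K ^ 2 * ν A := by ring
  have lm := hl l lb
  have Bm := hl B Bb
  have lTm : Measurable fun ω => l (T (Y ω)) := hl (l.comp T) ⟨K ^ 2, lTK⟩
  have lT_int : Integrable (fun ω => l (T (Y ω))) μ := by
    refine bi _ (K ^ 2 * K) lTm fun ω => (lTK _).trans ?_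
    exact mul_le_mul_of_nonneg_left (hνK ω) (pow_nonneg hK0 2)
  have lb1 : ∀ ω, |l (Y ω)| ≤ K * K := fun ω =>
    (hlK _).trans (mul_le_mul_of_nonneg_left (hνK ω) hK0)
  have Bb1 : ∀ ω, |B (Y ω)| ≤ K * K := fun ω =>
    (hD.B_le _).trans (mul_le_mul_of_nonneg_left (hνK ω) hK0)
  -- `h - B`
  have hr : ∀ ω, |h ω - B (Y ω)| ≤ 2 * K ^ 2 * ν (Y ω) ^ 2 := by
    intro ω
    have a1 := hD.h_le ω
    have a2 := hD.q_le (Y ω) (Y ω)
    have a3 : |h ω - B (Y ω)| ≤ |h ω - B (Y ω) - q (Y ω) (Y ω)| + |q (Y ω) (Y ω)| := by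
      have := abs_add_le (h ω - B (Y ω) - q (Y ω) (Y ω)) (q (Y ω) (Y ω))
      rwa [sub_add_cancel] at this
    have a4 : K * ν (Y ω) ^ 3 ≤ K ^ 2 * ν (Y ω) ^ 2 := by
      have := mul_le_mul_of_nonneg_left (hνK ω) (mul_nonneg hK0 (pow_nonneg (hn0 ω) 2))
      calc K * ν (Y ω) ^ 3 = K * ν (Y ω) ^ 2 * ν (Y ω) := by ring
        _ ≤ K * ν (Y ω) ^ 2 * K := this
        _ = _ := by ring
    have a5 : K * ν (Y ω) * ν (Y ω) ≤ K ^ 2 * ν (Y ω) ^ 2 := by
      have a6 : K ≤ K ^ 2 := by nlinarith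
      have := mul_le_mul_of_nonneg_right a6 (pow_nonneg (hn0 ω) 2)
      calc K * ν (Y ω) * ν (Y ω) = K * ν (Y ω) ^ 2 := by ring
        _ ≤ _ := this
    linarith
  have hb1 : ∀ ω, |h ω| ≤ 2 * K ^ 2 * K ^ 2 + K * K := by
    intro ω
    have a1 := hr ω
    have a2 : |h ω| ≤ |h ω - B (Y ω)| + |B (Y ω)| := by
      have := abs_add_le (h ω - B (Y ω)) (B (Y ω))
      rwa [sub_add_cancel] at this
    have a3 : 2 * K ^ 2 * ν (Y ω) ^ 2 ≤ 2 * K ^ 2 * K ^ 2 :=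
      mul_le_mul_of_nonneg_left (pow_le_pow_left₀ (hn0 ω) (hνK ω) 2) (by positivity)
    have a4 := Bb1 ω
    linarith
  have lh_int : Integrable (fun ω => l (Y ω) * h ω) μ := by
    refine bi _ (K * K * (2 * K ^ 2 * K ^ 2 + K * K)) (lm.mul hD.h_meas) fun ω => ?_
    rw [abs_mul]
    exact mul_le_mul (lb1 ω) (hb1 ω) (abs_nonneg _) (by positivity)
  have Bl_int : Integrable (fun ω => B (Y ω) * l (Y ω)) μ := by
    refine bi _ (K * K * (K * K)) (Bm.mul lm) fun ω => ?_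
    rw [abs_mul]
    exact mul_le_mul (Bb1 ω) (lb1 ω) (abs_nonneg _) (by positivity)
  -- the identity
  have e1 := hD.sd1 l lb
  have e2 : ∫ ω, l (c + T (Y ω)) ∂μ = l c + ∫ ω, l (T (Y ω)) ∂μ := by
    have : ∀ ω, l (c + T (Y ω)) = l c + l (T (Y ω)) := fun ω => map_add l _ _
    simp only [this]
    rw [integral_add (integrable_const _) lT_int, integral_const, probReal_univ, one_smul]
  rw [e2] at e1
  have e3 : β * ∫ ω, B (Y ω) * l (Y ω) ∂μ - l c =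
      ∫ ω, l (T (Y ω)) ∂μ - β * ∫ ω, (l (Y ω) * h ω - B (Y ω) * l (Y ω)) ∂μ := by
    rw [integral_sub lh_int Bl_int]
    linarith
  have b1 : |∫ ω, l (T (Y ω)) ∂μ| ≤ K ^ 2 * (M + K * p) := by
    have a1 : |∫ ω, l (T (Y ω)) ∂μ| ≤ ∫ ω, K ^ 2 * ν (Y ω) ^ 1 ∂μ := by
      refine (abs_integral_le_integral_abs).trans ?_
      refine integral_mono lT_int.abs ((inj 1).const_mul _) fun ω => ?_
      show |l (T (Y ω))| ≤ K ^ 2 * ν (Y ω) ^ 1
      rw [pow_one]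
      exact lTK _
    rw [integral_const_mul] at a1
    have a2 := mom 1
    rw [pow_one, pow_one] at a2
    exact a1.trans (mul_le_mul_of_nonneg_left a2 (pow_nonneg hK0 2))
  have b2 : |∫ ω, (l (Y ω) * h ω - B (Y ω) * l (Y ω)) ∂μ| ≤ 2 * K ^ 3 * (M ^ 3 + K ^ 3 * p) := by
    have a1 : |∫ ω, (l (Y ω) * h ω - B (Y ω) * l (Y ω)) ∂μ| ≤
        ∫ ω, 2 * K ^ 3 * ν (Y ω) ^ 3 ∂μ := by
      refine (abs_integral_le_integral_abs).trans ?_
      refine integral_mono (lh_int.sub Bl_int).abs ((inj 3).const_mul _) fun ω => ?_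
      show |l (Y ω) * h ω - B (Y ω) * l (Y ω)| ≤ 2 * K ^ 3 * ν (Y ω) ^ 3
      have c1 : l (Y ω) * h ω - B (Y ω) * l (Y ω) = l (Y ω) * (h ω - B (Y ω)) := by ring
      rw [c1, abs_mul]
      calc |l (Y ω)| * |h ω - B (Y ω)| ≤ (K * ν (Y ω)) * (2 * K ^ 2 * ν (Y ω) ^ 2) :=
            mul_le_mul (hlK _) (hr ω) (abs_nonneg _) (mul_nonneg hK0 (hn0 ω))
        _ = _ := by ring
    rw [integral_const_mul] at a1
    exact a1.trans (mul_le_mul_of_nonneg_left (mom 3) (by positivity))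
  rw [e3]
  have b3 : |∫ ω, l (T (Y ω)) ∂μ - β * ∫ ω, (l (Y ω) * h ω - B (Y ω) * l (Y ω)) ∂μ| ≤
      K ^ 2 * (M + K * p) + β * (2 * K ^ 3 * (M ^ 3 + K ^ 3 * p)) := by
    refine (abs_sub _ _).trans ?_
    rw [abs_mul, abs_of_nonneg hβ]
    exact add_le_add b1 (mul_le_mul_of_nonneg_left b2 hβ)
  refine b3.trans ?_
  have k2 : K ^ 2 ≤ K ^ 9 := pow_le_pow_right₀ hK (by norm_num)
  have k3 : K ^ 3 ≤ K ^ 9 := pow_le_pow_right₀ hK (by norm_num)
  have k6 : K ^ 6 ≤ K ^ 9 := pow_le_pow_right₀ hK (by norm_num)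
  have k9 : 0 ≤ K ^ 9 := pow_nonneg hK0 9
  have hM3 : 0 ≤ β * M ^ 3 := mul_nonneg hβ (pow_nonneg hM 3)
  have hβp : 0 ≤ β * p := mul_nonneg hβ hp
  have m1 := mul_le_mul_of_nonneg_right k2 hM
  have m2 := mul_le_mul_of_nonneg_right k3 hp
  have m3 := mul_le_mul_of_nonneg_right k3 hM3
  have m4 := mul_le_mul_of_nonneg_right k6 hβp
  have p1 := mul_nonneg k9 hM
  have p2 := mul_nonneg k9 hp
  have p3 := mul_nonneg k9 hM3
  have p4 := mul_nonneg k9 hβp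
  calc K ^ 2 * (M + K * p) + β * (2 * K ^ 3 * (M ^ 3 + K ^ 3 * p)) =
      K ^ 2 * M + K ^ 3 * p + 2 * (K ^ 3 * (β * M ^ 3)) + 2 * (K ^ 6 * (β * p)) := by ring
    _ ≤ 20 * (K ^ 9 * M) + 20 * (K ^ 9 * p) + 20 * (K ^ 9 * (β * M ^ 3)) +
        20 * (K ^ 9 * (β * p)) := by linarith
    _ = _ := by ring

end Pool.Agent.H115.GLU
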